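import Pool.Agent.Helper606.CA3.P_main3

/-!
# MP_abef03_an : a boundary of class C^{3,1/50} with positive curvature and no convex caustic

The definitions used by the statement (`Supports`, `IsTable`, `BoundaryCurve`, `IsBilliardPath`,
`IsConvexCaustic`) are in `Pool/Agent/Helper606/CA/Stmt.lean`.
-/

set_option autoImplicit false

namespace Pool.Agent.Results.MP_abef03_an.HolderThree

open Pool.Agent.Helper606.CA

/-- There is a plane convex body whose boundary has positive curvature `κ` (as a function of arc
length) of class `C^1` with `κ'` Hölder continuous of exponent `1/50`, i.e. a boundary curve of class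
`C^{3,1/50}`, and which has no convex caustic at all. -/
theorem result : ∃ (T : Set ℂ) (γ : ℝ → ℂ) (ψ κ : ℝ → ℝ) (L : ℝ), IsTable T ∧
    BoundaryCurve T γ ψ κ L ∧ (∀ s, 0 < κ s) ∧ ContDiff ℝ 1 κ ∧
    (∃ K : ℝ, ∀ s t : ℝ, |deriv κ s - deriv κ t| ≤ K * |s - t| ^ (1/50:ℝ)) ∧
    ∀ C : Set ℂ, ¬ IsConvexCaustic T γ ψ C := main3

end Pool.Agent.Results.MP_abef03_an.HolderThree
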